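import Mathlib

/-!
# MP_4cc90a_co: a pre-upho coloring whose monoid has two elements without a greatest common
left divisor
-/

namespace Pool.Agent.Results.MP_4cc90a_co.NoGcd

/-! ## General definitions -/

section Defs

variable {L : Type} [Lattice L] [BoundedOrder L]

/-- The atoms of `L`. -/
abbrev Atm (L : Type) [Lattice L] [BoundedOrder L] : Type := {s : L // IsAtom s}

/-- `ρ` is a rank function of `L` (so `L` is graded): `ρ ⊥ = 0` and `ρ` goes up by one along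
every cover. -/
def IsRank (ρ : L → ℕ) : Prop := ρ ⊥ = 0 ∧ ∀ x y : L, x ⋖ y → ρ y = ρ x + 1

/-- `c` is a pre-upho coloring of `L` (with rank function `ρ`). A coloring of the cover
relations is given as `c : L → L → Atm L`, of which only the values `c x y` with `x ⋖ y` are
ever used. The second condition: for `x ≠ ⊥, ⊤`, with `J` the join of the upper covers of `x`,
there is an embedding `φ : [x, J] → L` (an isomorphism of posets onto its image) which is
rank-preserving and color-preserving. -/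
structure PreUpho (ρ : L → ℕ) (c : L → L → Atm L) : Prop where
  bot : ∀ s : Atm L, c ⊥ s = s
  emb : ∀ x J : L, x ≠ ⊥ → x ≠ ⊤ → IsLUB {y | x ⋖ y} J → ∃ φ : Set.Icc x J → L,
    (∀ u v, φ u ≤ φ v ↔ u ≤ v) ∧ (∀ u, ρ (φ u) + ρ x = ρ u) ∧
    ∀ u v : Set.Icc x J, (u : L) ⋖ (v : L) → φ u ⋖ φ v ∧ c (φ u) (φ v) = c u v

/-- `ChainWord c x z w`: `w` is the word of colors along some saturated chain from `x`
to `z`. -/
inductive ChainWord (c : L → L → Atm L) : L → L → List (Atm L) → Prop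
  | nil (x : L) : ChainWord c x x []
  | cons {x y z : L} {w : List (Atm L)} (h : x ⋖ y) (hw : ChainWord c y z w) :
      ChainWord c x z (c x y :: w)

/-- The defining relations of the monoid: for every two atoms `x`, `y` and every two saturated
chains from `⊥` to `x ⊔ y`, the first through `x` and the second through `y`, the two words of
colors are equal. -/
def Rel (c : L → L → Atm L) (a b : FreeMonoid (Atm L)) : Prop :=
  ∃ (x y : Atm L) (u v : List (Atm L)),
    ChainWord c (x : L) ((x : L) ⊔ (y : L)) u ∧ ChainWord c (y : L) ((x : L) ⊔ (y : L)) v ∧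
    a = FreeMonoid.ofList (c ⊥ x :: u) ∧ b = FreeMonoid.ofList (c ⊥ y :: v)

/-- The monoid `M` of the coloring. -/
abbrev Mon (c : L → L → Atm L) : Type := PresentedMonoid (Rel c)

end Defs

/-- `u ≤_L v`: `u` is a left divisor of `v`. -/
def LeftDvd {M : Type} [Monoid M] (u v : M) : Prop := ∃ w, v = u * w

/-- `d` is a greatest common left divisor of `u` and `v`. -/
def IsGCLD {M : Type} [Monoid M] (d u v : M) : Prop :=
  LeftDvd d u ∧ LeftDvd d v ∧ ∀ d', LeftDvd d' u → LeftDvd d' v → LeftDvd d' d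

/-- The statement of the problem. -/
def Conjecture : Prop :=
  ∀ (L : Type) [Fintype L] [Lattice L] [BoundedOrder L] (ρ : L → ℕ) (c : L → L → Atm L),
    IsRank ρ → IsLUB {s : L | IsAtom s} ⊤ → PreUpho ρ c →
      (∀ a u v : Mon c, a * u = a * v → u = v) ∧ ∀ u v : Mon c, ∃ d, IsGCLD d u v

/-! ## Homomorphisms from the monoid -/

section Hom

variable {L : Type} [Lattice L] [BoundedOrder L] {c : L → L → Atm L}

theorem ChainWord.value {N : Type} [Monoid N] (f : Atm L → N) (V : L → N)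
    (hV : ∀ u v : L, u ⋖ v → V v = V u * f (c u v)) {x z : L} {w : List (Atm L)}
    (h : ChainWord c x z w) : V z = V x * (w.map f).prod := by
  induction h with
  | nil x => simp
  | cons hxy hw ih =>
    rw [ih, hV _ _ hxy]
    simp [mul_assoc]

theorem rel_value {N : Type} [Monoid N] (f : Atm L → N) (V : L → N) (h1 : V ⊥ = 1)
    (hV : ∀ u v : L, u ⋖ v → V v = V u * f (c u v)) (a b : FreeMonoid (Atm L))
    (h : Rel c a b) : FreeMonoid.lift f a = FreeMonoid.lift f b := by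
  obtain ⟨x, y, u, v, hu, hv, rfl, rfl⟩ := h
  have e1 := hu.value f V hV
  have e2 := hv.value f V hV
  have hx : V x = f (c ⊥ x) := by
    rw [hV ⊥ x (bot_covBy_iff.2 x.2), h1, one_mul]
  have hy : V y = f (c ⊥ y) := by
    rw [hV ⊥ y (bot_covBy_iff.2 y.2), h1, one_mul]
  rw [FreeMonoid.lift_ofList, FreeMonoid.lift_ofList]
  simp only [List.map_cons, List.prod_cons]
  rw [← hx, ← hy, ← e1, ← e2]

/-- The homomorphism from the monoid to `N` sending each atom `s` to `f s`. -/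
def toHom {N : Type} [Monoid N] (f : Atm L → N) (V : L → N) (h1 : V ⊥ = 1)
    (hV : ∀ u v : L, u ⋖ v → V v = V u * f (c u v)) : Mon c →* N :=
  PresentedMonoid.lift f (rel_value f V h1 hV)

end Hom

/-! ## The lattice -/

/-- The ground set: `0` is the bottom, `1,…,5` are the atoms `x, a, b, d, e`, `6,…,10` have
rank two, `11, 12, 13` have rank three, `14` is the top. -/
structure E where
  val : Fin 15
deriving DecidableEq, Fintype

/-- bit masks of the principal ideals -/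
def mask : List ℕ :=
  [1, 3, 5, 9, 17, 33, 71, 139, 277, 561, 1065, 2119, 4235, 10045, 32767]

def supT : List (List ℕ) :=
  [[0, 1, 2, 3, 4, 5, 6, 7, 8, 9, 10, 11, 12, 13, 14],
   [1, 1, 6, 7, 14, 14, 6, 7, 14, 14, 14, 11, 12, 14, 14],
   [2, 6, 2, 13, 8, 13, 6, 14, 8, 13, 13, 11, 14, 13, 14],
   [3, 7, 13, 3, 13, 10, 14, 7, 13, 13, 10, 14, 12, 13, 14],
   [4, 14, 8, 13, 4, 9, 14, 14, 8, 9, 13, 14, 14, 13, 14],
   [5, 14, 13, 10, 9, 5, 14, 14, 13, 9, 10, 14, 14, 13, 14],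
   [6, 6, 6, 14, 14, 14, 6, 14, 14, 14, 14, 11, 14, 14, 14],
   [7, 7, 14, 7, 14, 14, 14, 7, 14, 14, 14, 14, 12, 14, 14],
   [8, 14, 8, 13, 8, 13, 14, 14, 8, 13, 13, 14, 14, 13, 14],
   [9, 14, 13, 13, 9, 9, 14, 14, 13, 9, 13, 14, 14, 13, 14],
   [10, 14, 13, 10, 13, 10, 14, 14, 13, 13, 10, 14, 14, 13, 14],
   [11, 11, 11, 14, 14, 14, 11, 14, 14, 14, 14, 11, 14, 14, 14],
   [12, 12, 14, 12, 14, 14, 14, 12, 14, 14, 14, 14, 12, 14, 14],
   [13, 14, 13, 13, 13, 13, 14, 14, 13, 13, 13, 14, 14, 13, 14],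
   [14, 14, 14, 14, 14, 14, 14, 14, 14, 14, 14, 14, 14, 14, 14]]

def infT : List (List ℕ) :=
  [[0, 0, 0, 0, 0, 0, 0, 0, 0, 0, 0, 0, 0, 0, 0],
   [0, 1, 0, 0, 0, 0, 1, 1, 0, 0, 0, 1, 1, 0, 1],
   [0, 0, 2, 0, 0, 0, 2, 0, 2, 0, 0, 2, 0, 2, 2],
   [0, 0, 0, 3, 0, 0, 0, 3, 0, 0, 3, 0, 3, 3, 3],
   [0, 0, 0, 0, 4, 0, 0, 0, 4, 4, 0, 0, 0, 4, 4],
   [0, 0, 0, 0, 0, 5, 0, 0, 0, 5, 5, 0, 0, 5, 5],
   [0, 1, 2, 0, 0, 0, 6, 1, 2, 0, 0, 6, 1, 2, 6],
   [0, 1, 0, 3, 0, 0, 1, 7, 0, 0, 3, 1, 7, 3, 7],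
   [0, 0, 2, 0, 4, 0, 2, 0, 8, 4, 0, 2, 0, 8, 8],
   [0, 0, 0, 0, 4, 5, 0, 0, 4, 9, 5, 0, 0, 9, 9],
   [0, 0, 0, 3, 0, 5, 0, 3, 0, 5, 10, 0, 3, 10, 10],
   [0, 1, 2, 0, 0, 0, 6, 1, 2, 0, 0, 11, 1, 2, 11],
   [0, 1, 0, 3, 0, 0, 1, 7, 0, 0, 3, 1, 12, 3, 12],
   [0, 0, 2, 3, 4, 5, 2, 3, 8, 9, 10, 2, 3, 13, 13],
   [0, 1, 2, 3, 4, 5, 6, 7, 8, 9, 10, 11, 12, 13, 14]]

def tab (T : List (List ℕ)) (i j : E) : E :=
  ⟨Fin.ofNat 15 ((T.getD i.val.val []).getD j.val.val 0)⟩

instance : LE E := ⟨fun i j => Nat.testBit (mask.getD j.val.val 0) i.val.val = true⟩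

instance : DecidableRel (α := E) (· ≤ ·) := fun i j =>
  inferInstanceAs (Decidable (Nat.testBit (mask.getD j.val.val 0) i.val.val = true))

instance : Lattice E where
  le_refl := by decide +kernel
  le_trans := by decide +kernel
  le_antisymm := by decide +kernel
  sup := tab supT
  le_sup_left := by decide +kernel
  le_sup_right := by decide +kernel
  sup_le := by decide +kernel
  inf := tab infT
  inf_le_left := by decide +kernel
  inf_le_right := by decide +kernel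
  le_inf := by decide +kernel

instance : BoundedOrder E where
  top := ⟨14⟩
  le_top := by decide +kernel
  bot := ⟨0⟩
  bot_le := by decide +kernel

instance : DecidableRel (α := E) (· < ·) := fun i j =>
  inferInstanceAs (Decidable (i ≤ j ∧ ¬ j ≤ i))

instance : DecidableRel (α := E) (· ⋖ ·) := fun i j =>
  inferInstanceAs (Decidable (i < j ∧ ∀ k, i < k → ¬ k < j))

instance (i : E) : Decidable (IsAtom i) :=
  inferInstanceAs (Decidable (i ≠ ⊥ ∧ ∀ k, k < i → k = ⊥))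

/-- The rank function. -/
def rk (i : E) : ℕ := [0, 1, 1, 1, 1, 1, 2, 2, 2, 2, 2, 3, 3, 3, 4].getD i.val.val 0

def aX : Atm E := ⟨⟨1⟩, by decide +kernel⟩
def aA : Atm E := ⟨⟨2⟩, by decide +kernel⟩
def aB : Atm E := ⟨⟨3⟩, by decide +kernel⟩
def aD : Atm E := ⟨⟨4⟩, by decide +kernel⟩
def aE : Atm E := ⟨⟨5⟩, by decide +kernel⟩

/-- The coloring. -/
def col (u v : E) : Atm E :=
  if h : u = ⊥ ∧ IsAtom v then ⟨v, h.2⟩ else
  if (u.val.val, v.val.val) ∈ [(1, 7), (2, 8), (3, 7), (9, 13)] then aE else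
  if (u.val.val, v.val.val) ∈ [(4, 9), (5, 9)] then aA else aD

/-- The join of the upper covers. -/
def J (x : E) : E :=
  ⟨Fin.ofNat 15 ([14, 14, 14, 14, 13, 13, 11, 12, 13, 13, 13, 14, 14, 14, 14].getD x.val.val 0)⟩

def phiT : List (List ℕ) :=
  [[0, 0, 0, 0, 0, 0, 0, 0, 0, 0, 0, 0, 0, 0, 0],
   [0, 0, 0, 0, 0, 0, 4, 5, 0, 0, 0, 8, 10, 0, 13],
   [0, 0, 0, 0, 0, 0, 4, 0, 5, 0, 0, 8, 0, 10, 13],
   [0, 0, 0, 0, 0, 0, 0, 5, 0, 0, 4, 0, 10, 8, 13],
   [0, 0, 0, 0, 0, 0, 0, 0, 4, 2, 0, 0, 0, 8, 0],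
   [0, 0, 0, 0, 0, 0, 0, 0, 0, 2, 4, 0, 0, 8, 0],
   [0, 0, 0, 0, 0, 0, 0, 0, 0, 0, 0, 4, 0, 0, 0],
   [0, 0, 0, 0, 0, 0, 0, 0, 0, 0, 0, 0, 4, 0, 0],
   [0, 0, 0, 0, 0, 0, 0, 0, 0, 0, 0, 0, 0, 4, 0],
   [0, 0, 0, 0, 0, 0, 0, 0, 0, 0, 0, 0, 0, 5, 0],
   [0, 0, 0, 0, 0, 0, 0, 0, 0, 0, 0, 0, 0, 4, 0],
   [0, 0, 0, 0, 0, 0, 0, 0, 0, 0, 0, 0, 0, 0, 4],
   [0, 0, 0, 0, 0, 0, 0, 0, 0, 0, 0, 0, 0, 0, 4],
   [0, 0, 0, 0, 0, 0, 0, 0, 0, 0, 0, 0, 0, 0, 4],
   [0, 0, 0, 0, 0, 0, 0, 0, 0, 0, 0, 0, 0, 0, 0]]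

theorem isRank_rk : IsRank rk := by
  refine ⟨by decide +kernel, ?_⟩
  decide +kernel

theorem isLUB_top : IsLUB {s : E | IsAtom s} ⊤ := by
  refine ⟨fun s _ => le_top, ?_⟩
  intro z hz
  have : ∀ z : E, (∀ s : E, IsAtom s → s ≤ z) → (⊤ : E) ≤ z := by decide +kernel
  exact this z (fun s hs => hz hs)

theorem isLUB_J (x : E) (hx : x ≠ ⊤) : IsLUB {y | x ⋖ y} (J x) := by
  have h1 : ∀ x y : E, x ⋖ y → y ≤ J x := by decide +kernel
  have h2 : ∀ x : E, x ≠ ⊤ → ∀ z : E, (∀ y : E, x ⋖ y → y ≤ z) → J x ≤ z := by decide +kernel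
  exact ⟨fun y hy => h1 x y hy, fun z hz => h2 x hx z (fun y hy => hz hy)⟩

theorem phi_le : ∀ x u v : E, x ≠ ⊥ → x ≤ u → u ≤ J x → x ≤ v → v ≤ J x →
    (tab phiT x u ≤ tab phiT x v ↔ u ≤ v) := by decide +kernel

theorem phi_rk : ∀ x u : E, x ≠ ⊥ → x ≤ u → u ≤ J x →
    rk (tab phiT x u) + rk x = rk u := by decide +kernel

theorem phi_cov : ∀ x u v : E, x ≠ ⊥ → x ≤ u → u ≤ J x → x ≤ v → v ≤ J x → u ⋖ v →
    tab phiT x u ⋖ tab phiT x v := by
  decide +kernel

theorem phi_col : ∀ x u v : E, x ≠ ⊥ → x ≤ u → u ≤ J x → x ≤ v → v ≤ J x → u ⋖ v →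
    (col (tab phiT x u) (tab phiT x v)).1 = (col u v).1 := by
  decide +kernel

theorem preUpho : PreUpho rk col := by
  refine ⟨?_, ?_⟩
  · intro s
    unfold col
    rw [dif_pos ⟨rfl, s.2⟩]
  · intro x K hx hx' hK
    have : K = J x := hK.unique (isLUB_J x hx')
    subst this
    refine ⟨fun u => tab phiT x u, ?_, ?_, ?_⟩
    · intro u v
      exact phi_le x u v hx u.2.1 u.2.2 v.2.1 v.2.2
    · intro u
      exact phi_rk x u hx u.2.1 u.2.2
    · intro u v huv
      exact ⟨phi_cov x u v hx u.2.1 u.2.2 v.2.1 v.2.2 huv,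
        Subtype.ext (phi_col x u v hx u.2.1 u.2.2 v.2.1 v.2.2 huv)⟩

/-! ## The three invariants -/

/-- The length homomorphism. -/
def len : Mon col →* Multiplicative ℕ :=
  toHom (fun _ => Multiplicative.ofAdd 1) (fun z => Multiplicative.ofAdd (rk z)) rfl (by
    intro u v huv
    rw [isRank_rk.2 u v huv]
    rfl)

/-- The monoid of transformations of `Fin n`, acting on the right. -/
abbrev Tr (n : ℕ) : Type := (Function.End (Fin n))ᵐᵒᵖ

/-- the function given by a table -/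
def tf (n : ℕ) [NeZero n] (l : List ℕ) (q : Fin n) : Fin n := Fin.ofNat n (l.getD q.val 0)

/-- a function as a transformation -/
def tr {n : ℕ} (f : Fin n → Fin n) : Tr n := MulOpposite.op f

theorem tr_mul {n : ℕ} (a b : Fin n → Fin n) : tr a * tr b = tr (fun q => b (a q)) := rfl

theorem tr_one {n : ℕ} : tr (fun q : Fin n => q) = 1 := rfl

theorem tr_inj {n : ℕ} {a b : Fin n → Fin n} (h : tr a = tr b) (q : Fin n) : a q = b q := by
  have := MulOpposite.op_injective h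
  exact congrFun this q

/-- the action of the atoms in the second invariant -/
def f2 (s : Atm E) : Fin 7 → Fin 7 :=
  tf 7 ([[], [6, 6, 6, 6, 6, 6, 6], [1, 6, 6, 6, 6, 6, 6], [3, 6, 6, 6, 6, 6, 6],
    [2, 6, 4, 5, 6, 6, 6], [3, 4, 6, 6, 6, 6, 6]].getD s.1.val.val [])

def V2 (z : E) : Fin 7 → Fin 7 :=
  tf 7 ([[0, 1, 2, 3, 4, 5, 6], [6, 6, 6, 6, 6, 6, 6], [1, 6, 6, 6, 6, 6, 6],
    [3, 6, 6, 6, 6, 6, 6], [2, 6, 4, 5, 6, 6, 6], [3, 4, 6, 6, 6, 6, 6],
    [6, 6, 6, 6, 6, 6, 6], [6, 6, 6, 6, 6, 6, 6], [4, 6, 6, 6, 6, 6, 6],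
    [6, 6, 6, 6, 6, 6, 6], [5, 6, 6, 6, 6, 6, 6]].getD z.val.val [6, 6, 6, 6, 6, 6, 6])

theorem V2_bot : ∀ q, V2 ⊥ q = q := by decide +kernel

theorem V2_step : ∀ u v : E, u ⋖ v → ∀ q : Fin 7, V2 v q = f2 (col u v) (V2 u q) := by
  decide +kernel

/-- The second invariant. -/
def act : Mon col →* Tr 7 :=
  toHom (fun s => tr (f2 s)) (fun z => tr (V2 z)) (by rw [← tr_one]; congr; ext q; rw [V2_bot]) (by
    intro u v huv
    rw [tr_mul]; congr; ext q; rw [V2_step u v huv])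

/-- the action of the atoms in the third invariant: is the last letter `a`? -/
def f3 (s : Atm E) : Fin 3 → Fin 3 :=
  tf 3 ([[], [2, 2, 2], [1, 1, 1], [2, 2, 2], [2, 2, 2], [2, 2, 2]].getD s.1.val.val [])

def V3 (z : E) : Fin 3 → Fin 3 :=
  tf 3 ([[0, 1, 2], [2, 2, 2], [1, 1, 1], [2, 2, 2], [2, 2, 2], [2, 2, 2], [2, 2, 2], [2, 2, 2],
    [2, 2, 2], [1, 1, 1]].getD z.val.val [2, 2, 2])

theorem V3_bot : ∀ q, V3 ⊥ q = q := by decide +kernel

theorem V3_step : ∀ u v : E, u ⋖ v → ∀ q : Fin 3, V3 v q = f3 (col u v) (V3 u q) := by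
  decide +kernel

/-- The third invariant. -/
def last : Mon col →* Tr 3 :=
  toHom (fun s => tr (f3 s)) (fun z => tr (V3 z)) (by rw [← tr_one]; congr; ext q; rw [V3_bot]) (by
    intro u v huv
    rw [tr_mul]; congr; ext q; rw [V3_step u v huv])

/-! ## The relations used -/

/-- The generators of the monoid. -/
def g (s : Atm E) : Mon col := PresentedMonoid.of (Rel col) s

theorem len_g (s : Atm E) : len (g s) = Multiplicative.ofAdd 1 := rfl

theorem act_g (s : Atm E) : act (g s) = tr (f2 s) := rfl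

theorem last_g (s : Atm E) : last (g s) = tr (f3 s) := rfl

/-- A product of generators. -/
theorem mk_ofList (l : List (Atm E)) :
    PresentedMonoid.mk (Rel col) (FreeMonoid.ofList l) = (l.map g).prod := by
  induction l with
  | nil => rfl
  | cons a l ih =>
    rw [List.map_cons, List.prod_cons, ← ih]
    rfl

/-- The words of two chains are equal in the monoid. -/
theorem rel_words (x y : Atm E) (u v : List (Atm E))
    (hu : ChainWord col (x : E) ((x : E) ⊔ (y : E)) u)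
    (hv : ChainWord col (y : E) ((x : E) ⊔ (y : E)) v) :
    ((x :: u).map g).prod = ((y :: v).map g).prod := by
  rw [← mk_ofList, ← mk_ofList]
  refine Quotient.sound ?_
  refine ConGen.Rel.of _ _ ?_
  refine ⟨x, y, u, v, hu, hv, ?_, ?_⟩
  · rw [preUpho.bot]
  · rw [preUpho.bot]

/-- A chain of length one. -/
theorem chain1 (x z : E) (a : Atm E) (h : x ⋖ z ∧ (col x z).1 = a.1) :
    ChainWord col x z [a] := by
  have : a = col x z := Subtype.ext h.2.symm
  rw [this]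
  exact ChainWord.cons h.1 (ChainWord.nil z)

/-- A chain of length two. -/
theorem chain2 (x y z : E) (a b : Atm E)
    (h : x ⋖ y ∧ (col x y).1 = a.1 ∧ y ⋖ z ∧ (col y z).1 = b.1) :
    ChainWord col x z [a, b] := by
  have h1 : a = col x y := Subtype.ext h.2.1.symm
  rw [h1]
  exact ChainWord.cons h.1 (chain1 y z b h.2.2)

theorem R1 : g aX * g aD = g aA * g aD := by
  have := rel_words aX aA [aD] [aD] (chain1 _ _ _ (by decide +kernel))
    (chain1 _ _ _ (by decide +kernel))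
  simpa using this

theorem R2 : g aX * g aE = g aB * g aE := by
  have := rel_words aX aB [aE] [aE] (chain1 _ _ _ (by decide +kernel))
    (chain1 _ _ _ (by decide +kernel))
  simpa using this

theorem R3 : g aD * g aA = g aE * g aA := by
  have := rel_words aD aE [aA] [aA] (chain1 _ _ _ (by decide +kernel))
    (chain1 _ _ _ (by decide +kernel))
  simpa using this

theorem R4 : g aE * g aD = g aB * g aD := by
  have := rel_words aE aB [aD] [aD] (chain1 _ _ _ (by decide +kernel))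
    (chain1 _ _ _ (by decide +kernel))
  simpa using this

theorem R5 : g aA * (g aE * g aD) = g aE * (g aD * g aD) := by
  have := rel_words aA aE [aE, aD] [aD, aD] (chain2 _ ⟨8⟩ _ _ _ (by decide +kernel))
    (chain2 _ ⟨10⟩ _ _ _ (by decide +kernel))
  simpa using this

/-- The two elements. -/
def p : Mon col := g aA * g aE * g aA
def q : Mon col := g aA * g aE * g aD

theorem p_eq : p = g aE * g aD * g aA := by
  unfold p
  calc g aA * g aE * g aA = g aA * (g aE * g aA) := mul_assoc _ _ _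
    _ = g aA * (g aD * g aA) := by rw [R3]
    _ = g aA * g aD * g aA := (mul_assoc _ _ _).symm
    _ = g aX * g aD * g aA := by rw [R1]
    _ = g aX * (g aD * g aA) := mul_assoc _ _ _
    _ = g aX * (g aE * g aA) := by rw [R3]
    _ = g aX * g aE * g aA := (mul_assoc _ _ _).symm
    _ = g aB * g aE * g aA := by rw [R2]
    _ = g aB * (g aE * g aA) := mul_assoc _ _ _
    _ = g aB * (g aD * g aA) := by rw [R3]
    _ = g aB * g aD * g aA := (mul_assoc _ _ _).symm
    _ = g aE * g aD * g aA := by rw [R4]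

theorem q_eq : q = g aE * g aD * g aD := by
  unfold q
  rw [mul_assoc, R5, mul_assoc]

theorem p_ne_q : p ≠ q := by
  intro h
  have := congrArg last h
  unfold p q at this
  simp only [map_mul, last_g, tr_mul] at this
  have h2 := tr_inj this 0
  exact absurd h2 (by decide +kernel)

theorem ae_ne_ed : g aA * g aE ≠ g aE * g aD := by
  intro h
  have := congrArg act h
  simp only [map_mul, act_g, tr_mul] at this
  have h2 := tr_inj this 0
  exact absurd h2 (by decide +kernel)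

/-- The length as a natural number. -/
def ln (w : Mon col) : ℕ := Multiplicative.toAdd (len w)

theorem ln_mul (v w : Mon col) : ln (v * w) = ln v + ln w := by
  unfold ln
  rw [map_mul]
  rfl

theorem ln_g (s : Atm E) : ln (g s) = 1 := rfl

theorem eq_one_of_ln (w : Mon col) (h : ln w = 0) : w = 1 := by
  have key : ∀ l : List (Atm E), ln (PresentedMonoid.mk (Rel col) (FreeMonoid.ofList l)) = 0 →
      PresentedMonoid.mk (Rel col) (FreeMonoid.ofList l) = 1 := by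
    intro l hl
    cases l with
    | nil => rfl
    | cons a l =>
      rw [mk_ofList, List.map_cons, List.prod_cons, ln_mul, ln_g] at hl
      omega
  obtain ⟨l, rfl⟩ := PresentedMonoid.surjective_mk w
  exact key l.toList h

theorem no_gcd (d : Mon col) (h : IsGCLD d p q) : False := by
  obtain ⟨⟨t, ht⟩, ⟨t', ht'⟩, hd⟩ := h
  obtain ⟨r, hr⟩ := hd (g aA * g aE) ⟨g aA, rfl⟩ ⟨g aD, rfl⟩
  obtain ⟨s, hs⟩ := hd (g aE * g aD) ⟨g aA, p_eq⟩ ⟨g aD, q_eq⟩
  have e1 : ln p = 3 := rfl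
  have e2 : ln q = 3 := rfl
  have e3 : ln (g aA * g aE) = 2 := rfl
  have e4 : ln (g aE * g aD) = 2 := rfl
  have l1 := congrArg ln ht
  have l2 := congrArg ln ht'
  have l3 := congrArg ln hr
  have l4 := congrArg ln hs
  rw [ln_mul] at l1 l2 l3 l4
  rw [e1] at l1
  rw [e2] at l2
  rw [e3] at l3
  rw [e4] at l4
  rcases Nat.eq_zero_or_pos (ln r) with h0 | h0
  · have hr1 := eq_one_of_ln r h0
    have hs1 := eq_one_of_ln s (by omega)
    rw [hr1, mul_one] at hr
    rw [hs1, mul_one] at hs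
    exact ae_ne_ed (hr.symm.trans hs)
  · have h1 := eq_one_of_ln t (by omega)
    have h2 := eq_one_of_ln t' (by omega)
    rw [h1, mul_one] at ht
    rw [h2, mul_one] at ht'
    exact p_ne_q (ht.trans ht'.symm)

/-- **The answer**: the statement of the problem is false. -/
theorem result : ¬ Conjecture := by
  intro h
  obtain ⟨-, h2⟩ := h E rk col isRank_rk isLUB_top preUpho
  obtain ⟨d, hd⟩ := h2 p q
  exact no_gcd d hd

end Pool.Agent.Results.MP_4cc90a_co.NoGcd
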